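import Pool.Agent.Lib_helper52.EPS.Defs

/-!
# Project YG (MP_70a3e9_pr): definitions

The sharp Young inequality with three functions, and its consequence for entropies of sums.
-/

set_option autoImplicit false

namespace Pool.Agent.YG

open MeasureTheory ENNReal Pool.Agent.EPS

/-- admissible exponents -/
structure Wt (c1 c2 c3 : ℝ) : Prop where
  a1 : 0 < c1
  b1 : c1 < 1
  a2 : 0 < c2
  b2 : c2 < 1
  a3 : 0 < c3
  b3 : c3 < 1
  sum : c1 + c2 + c3 = 2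

/-- the sharp constant `(∏ (1-c)^(1-c) / c^c)^(1/2)` -/
noncomputable def Kc (c1 c2 c3 : ℝ) : ℝ :=
  Real.exp ((Real.negMulLog c1 + Real.negMulLog c2 + Real.negMulLog c3 -
    Real.negMulLog (1 - c1) - Real.negMulLog (1 - c2) - Real.negMulLog (1 - c3)) / 2)

/-- `(c / (1-c))^(1/2)` -/
noncomputable def al (c : ℝ) : ℝ := Real.sqrt (c / (1 - c))

/-- the constant of the determinant inequality -/
noncomputable def ka (c1 c2 c3 : ℝ) : ℝ :=
  Real.exp ((c1 * Real.log (c1 / (1 - c1)) + c2 * Real.log (c2 / (1 - c2)) +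
    c3 * Real.log (c3 / (1 - c3))) / 2 +
    (Real.negMulLog (1 - c1) + Real.negMulLog (1 - c2) + Real.negMulLog (1 - c3)))

/-- the quadratic form -/
def qf (c1 c2 u w : ℝ) : ℝ :=
  (1 - c1) * c1 * u ^ 2 - 2 * (1 - c1) * (1 - c2) * u * w + (1 - c2) * c2 * w ^ 2

/-- the domain `x ∈ (a1,b1)`, `y ∈ (a2,b2)`, `x + y ∈ (a3,b3)` -/
def Dom (a1 b1 a2 b2 a3 b3 : ℝ) : Set (ℝ × ℝ) :=
  {p | p.1 ∈ Set.Ioo a1 b1 ∧ p.2 ∈ Set.Ioo a2 b2 ∧ p.1 + p.2 ∈ Set.Ioo a3 b3}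

/-- the inequality of Young type on `G` with constant `κ` -/
def YG (G : Type*) [MeasureSpace G] [Add G] (c1 c2 c3 κ : ℝ) : Prop :=
  ∀ f g h : G → ℝ≥0∞, Measurable f → Measurable g → Measurable h →
    ∫⁻ x, ∫⁻ y, f x ^ c1 * g y ^ c2 * h (x + y) ^ c3 ≤
      ENNReal.ofReal κ * ((∫⁻ x, f x) ^ c1 * (∫⁻ x, g x) ^ c2 * (∫⁻ x, h x) ^ c3)

/-- the density of a measure -/
noncomputable def dn {d : ℕ} (μ : Measure (EuclideanSpace ℝ (Fin d)))
    (x : EuclideanSpace ℝ (Fin d)) : ℝ≥0∞ := μ.rnDeriv volume x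

/-- the logarithm of the density -/
noncomputable def lg {d : ℕ} (μ : Measure (EuclideanSpace ℝ (Fin d)))
    (x : EuclideanSpace ℝ (Fin d)) : ℝ := Real.log (dn μ x).toReal

/-- the logarithm of the ratio of the reference density and the density of `(X, Y, Z)` -/
noncomputable def ell {d : ℕ} (α β γ : Measure (EuclideanSpace ℝ (Fin d))) (c1 c2 c3 : ℝ)
    (p : EuclideanSpace ℝ (Fin d) × EuclideanSpace ℝ (Fin d) × EuclideanSpace ℝ (Fin d)) : ℝ :=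
  -lg ((α.conv β).conv γ) (p.1 + p.2.1 + p.2.2)
    - (1 - c1) * lg α p.1 - (1 - c2) * lg β p.2.1 - (1 - c3) * lg γ p.2.2
    + c1 * lg (β.conv γ) (p.2.1 + p.2.2) + c2 * lg (α.conv γ) (p.1 + p.2.2)
    + c3 * lg (α.conv β) (p.1 + p.2.1)

end Pool.Agent.YG
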